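import Pool.Agent.W208.TL.All

set_option autoImplicit false

namespace Pool.Agent.Results.MP_e0aac0_nt.ExactAndCoarse

open Finset Filter

theorem result (k h0 : ℕ) (h : Fin k → ℕ) (hk : 1 ≤ k) (hinj : Function.Injective h)
    (hne : ∀ j, h j ≠ h0) (ε : ℝ) (hε : 0 < ε) : ∃ δ : ℝ, 0 < δ ∧ ∃ X0 : ℕ, ∀ X : ℕ, X0 ≤ X →
    ∀ b : ℕ → ℂ, (∀ l, ‖b l‖ ≤ 1) → ∀ G : (Fin k → ℕ) → ℂ, (∀ l, ‖G l‖ ≤ 1) →
      (∀ l l' : Fin k → ℕ, ‖G l - G l'‖ ≤ δ * ∑ j, |(l j : ℝ) - l' j|) →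
      ‖(∑ n ∈ Ioc 0 X, b (ArithmeticFunction.cardFactors (n + h0)) *
            G (fun j => ArithmeticFunction.cardFactors (n + h j))) / (X : ℂ) -
        ((∑ n ∈ Ioc 0 X, b (ArithmeticFunction.cardFactors n)) / (X : ℂ)) *
          ((∑ m ∈ Fintype.piFinset (fun _ : Fin k => Ioc 0 X),
            G (fun j => ArithmeticFunction.cardFactors (m j))) / (X : ℂ) ^ k)‖ ≤ ε :=
  Pool.Agent.W208.TL.OM_all k h0 h hk hinj hne ε hε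

end Pool.Agent.Results.MP_e0aac0_nt.ExactAndCoarse
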