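import Pool.Agent.W208.TL.All
import Pool.Agent.W208.TL.Omt2
import Pool.Agent.W177.TL.SI

set_option autoImplicit false

namespace Pool.Agent.Results.MP_e0aac0_nt.TruncatedOmega

open Finset Filter

/-- the number of prime factors `p ≤ y` of `n`, with multiplicity -/
noncomputable def Omega (y n : ℕ) : ℕ := ∑ p ∈ (Ioc 0 y).filter Nat.Prime, n.factorization p

theorem result (k h0 : ℕ) (h : Fin k → ℕ) (hk : 1 ≤ k) (hinj : Function.Injective h)
    (hne : ∀ j, h j ≠ h0) (ε : ℝ) (hε : 0 < ε) : ∃ A y0 : ℕ, 1 ≤ A ∧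
    ∀ y X : ℕ, y0 ≤ y → y ^ A ≤ X →
    ∀ b : ℕ → ℂ, (∀ l, ‖b l‖ ≤ 1) → ∀ G : (Fin k → ℕ) → ℂ, (∀ l, ‖G l‖ ≤ 1) →
      ‖(∑ n ∈ Ioc 0 X, b (ArithmeticFunction.cardFactors (n + h0)) *
            G (fun j => Omega y (n + h j))) / (X : ℂ) -
        ((∑ n ∈ Ioc 0 X, b (ArithmeticFunction.cardFactors n)) / (X : ℂ)) *
          ((∑ m ∈ Fintype.piFinset (fun _ : Fin k => Ioc 0 X),
            G (fun j => Omega y (m j))) / (X : ℂ) ^ k)‖ ≤ ε := by
  obtain ⟨A, y0, hA, H⟩ := Pool.Agent.W208.TL.omt Pool.Agent.W208.TL.ST_all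
    Pool.Agent.W177.TL.si k h0 h hk hinj hne ε hε
  refine ⟨A, y0, hA, ?_⟩
  intro y X hy hX b hb G hG
  have h1 := H y X hy hX (fun n => b (ArithmeticFunction.cardFactors n))
    (Pool.Agent.W883.TL.KF_Om b hb) G hG
  have h2 : ∀ n, ArithmeticFunction.cardFactors (Pool.Agent.W208.TL.sm 0 y n) = Omega y n :=
    fun n => Pool.Agent.W883.TL.Om_sm 0 y n
  simp only [h2] at h1
  exact h1

end Pool.Agent.Results.MP_e0aac0_nt.TruncatedOmega
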